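import Pool.Agent.Work.MP_14a437_ag.A.Chi
import Pool.Agent.Work.MP_14a437_ag.K.Basic

/-!
# B/Cnt  (M) : multiplicities and Hom dimensions

Induction on `Ext (TSimple H) E`: `q = 0`; `q = δ_i` (isomorphic objects have the same Hom dimensions);
`q = q_A + q_B` for `A → E → B`: `dim Hom(X,E) ≤ dim Hom(X,A) + dim Hom(X,B)` by exactness of
`Hom(X,A) → Hom(X,E) → Hom(X,B)` (`Triangle.coyoneda_exact₂`, rank-nullity, Hom spaces are finite
dimensional), and dually (`Triangle.yoneda_exact₂`).
-/

open CategoryTheory CategoryTheory.Limits CategoryTheory.Pretriangulated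

universe v u

namespace MP_14a437_ag

variable {C : Type u} [Category.{v} C] [Preadditive C] [HasZeroObject C] [HasShift C ℤ]
  [∀ n : ℤ, (shiftFunctor C n).Additive] [Pretriangulated C] [IsTriangulated C]

variable {k : Type*} [Field k] [Linear k C]

private theorem finrank_exact {k U V W : Type*} [Field k] [AddCommGroup U] [Module k U]
    [AddCommGroup V] [Module k V] [AddCommGroup W] [Module k W] [Module.Finite k U]
    [Module.Finite k V] [Module.Finite k W] (u : U →ₗ[k] V) (v : V →ₗ[k] W)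
    (h : LinearMap.ker v ≤ LinearMap.range u) :
    Module.finrank k V ≤ Module.finrank k U + Module.finrank k W := by
  have h1 := LinearMap.finrank_range_add_finrank_ker v
  have h2 : Module.finrank k (LinearMap.ker v) ≤ Module.finrank k (LinearMap.range u) :=
    Submodule.finrank_mono h
  have h3 := LinearMap.finrank_range_le u
  have h4 := Submodule.finrank_le (LinearMap.range v)
  omega

omit [IsTriangulated C] in
theorem finrank_hom_tri_le (hCY : IsCY2 C k) (X : C) {A E B : C} (f : A ⟶ E) (g : E ⟶ B)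
    (h : B ⟶ A⟦(1 : ℤ)⟧) (hT : Triangle.mk f g h ∈ distTriang C) :
    Module.finrank k (X ⟶ E) ≤ Module.finrank k (X ⟶ A) + Module.finrank k (X ⟶ B) ∧
    Module.finrank k (E ⟶ X) ≤ Module.finrank k (A ⟶ X) + Module.finrank k (B ⟶ X) := by
  have fin := hCY.hom_finite
  constructor
  · refine finrank_exact (Linear.rightComp k X f) (Linear.rightComp k X g) ?_
    intro w hw
    have hw' : w ≫ g = 0 := hw
    obtain ⟨a, ha⟩ := Triangle.coyoneda_exact₂ _ hT w hw'
    exact ⟨a, ha.symm⟩
  · rw [add_comm]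
    refine finrank_exact (Linear.leftComp k X g) (Linear.leftComp k X f) ?_
    intro w hw
    have hw' : f ≫ w = 0 := hw
    obtain ⟨a, ha⟩ := Triangle.yoneda_exact₂ _ hT w hw'
    exact ⟨a, ha.symm⟩

omit [IsTriangulated C] in
theorem exists_mult (hCY : IsCY2 C k) {T : ObjectProperty C} {n : ℕ} (s : Fin n → C)
    (hs : ∀ X, T X → ∃ i, Nonempty (X ≅ s i)) {E : C} (hE : Ext T E) :
    ∃ q : Fin n → ℕ, cl E = ∑ i, (q i : ℤ) • cl (s i) ∧ ∀ X : C,
      Module.finrank k (X ⟶ E) ≤ ∑ i, q i * Module.finrank k (X ⟶ s i) ∧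
      Module.finrank k (E ⟶ X) ≤ ∑ i, q i * Module.finrank k (s i ⟶ X) := by
  induction hE with
  | zero h =>
    refine ⟨0, by simp [cl_zero h], fun X => ?_⟩
    have h1 : Subsingleton (X ⟶ _) := ⟨fun a b => h.eq_of_tgt a b⟩
    have h2 : Subsingleton (_ ⟶ X) := ⟨fun a b => h.eq_of_src a b⟩
    rw [Module.finrank_zero_of_subsingleton, Module.finrank_zero_of_subsingleton]
    exact ⟨Nat.zero_le _, Nat.zero_le _⟩
  | @of E h =>
    obtain ⟨i, ⟨e⟩⟩ := hs E h
    refine ⟨Pi.single i 1, ?_, fun X => ?_⟩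
    · rw [cl_iso e, Finset.sum_eq_single i]
      · simp
      · intro j _ hj
        simp [Pi.single_eq_of_ne hj]
      · intro hi
        exact absurd (Finset.mem_univ i) hi
    · have e1 : Module.finrank k (X ⟶ E) = Module.finrank k (X ⟶ s i) :=
        LinearEquiv.finrank_eq (Linear.homCongr k (Iso.refl X) e)
      have e2 : Module.finrank k (E ⟶ X) = Module.finrank k (s i ⟶ X) :=
        LinearEquiv.finrank_eq (Linear.homCongr k e (Iso.refl X))
      have s1 : ∀ F : Fin n → ℕ, ∑ j, (Pi.single i 1 : Fin n → ℕ) j * F j = F i := by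
        intro F
        rw [Finset.sum_eq_single i]
        · simp
        · intro j _ hj
          simp [Pi.single_eq_of_ne hj]
        · intro hi
          exact absurd (Finset.mem_univ i) hi
      rw [s1, s1, e1, e2]
      exact ⟨le_rfl, le_rfl⟩
  | ext f g h hT hA hB ihA ihB =>
    obtain ⟨qA, a1, a2⟩ := ihA
    obtain ⟨qB, b1, b2⟩ := ihB
    refine ⟨qA + qB, ?_, fun X => ?_⟩
    · rw [cl_tri _ _ _ hT, a1, b1, ← Finset.sum_add_distrib]
      refine Finset.sum_congr rfl fun i _ => ?_
      rw [Pi.add_apply, Nat.cast_add, add_smul]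
    · obtain ⟨c1, c2⟩ := finrank_hom_tri_le hCY X f g h hT
      obtain ⟨a3, a4⟩ := a2 X
      obtain ⟨b3, b4⟩ := b2 X
      have s1 : ∀ F : Fin n → ℕ, ∑ j, (qA + qB) j * F j = ∑ j, qA j * F j + ∑ j, qB j * F j := by
        intro F
        rw [← Finset.sum_add_distrib]
        refine Finset.sum_congr rfl fun i _ => ?_
        rw [Pi.add_apply, add_mul]
      rw [s1, s1]
      exact ⟨c1.trans (add_le_add a3 b3), c2.trans (add_le_add a4 b4)⟩

end MP_14a437_ag
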