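import Pool.Agent.Work.MP_14a437_ag.B.Pos
import Pool.Agent.Work.MP_14a437_ag.B.Cnt
import Pool.Agent.Work.MP_14a437_ag.T.Gap

/-!
# B/Bound  (M) : subobjects and quotients in `P θ` of a fixed object have bounded weight

Let `n, s` be as in `finite_simples`, `K` as in `pos_def`, `E` in the heart `P((θ-1,θ])`.
Quotient `A → E → Q`, `Q ∈ P θ`: `Q` has multiplicities `q` (`exists_mult`, `P_finiteLength`).
`dim Hom(Q,Q) ≤ dim Hom(E,Q)`, since `Hom(E,Q) ← Hom(Q,Q)` is injective: its kernel comes from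
`Hom(A[1],Q) = 0` (`heart_isAdm.hom_neg` after shifting; `Triangle.yoneda_exact₃`).  So
`∑ q i² ≤ K χ(Q,Q) ≤ 2 K dim Hom(Q,Q) ≤ 2 K dim Hom(E,Q) ≤ 2 K ∑ q i dim Hom(E,s i) ≤ 2 K H ∑ q i`
with `H = ∑ i, dim Hom(E, s i)` (`chi_adm` for `P_isAdm`).  By Cauchy-Schwarz
`(∑ q i)² ≤ n ∑ q i²`, so `∑ q i ≤ 2 K H n`.  Finally `wt (cl Q) = ∑ q i wt (cl (s i))`.
Subobject `A → E → B`, `A ∈ P θ`: `Hom(A,A) → Hom(A,E)` is injective (kernel from `Hom(A,B[-1]) = 0`),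
and `dim Hom(A,E) ≤ ∑ q i dim Hom(s i, E)`.
-/

open CategoryTheory CategoryTheory.Limits CategoryTheory.Pretriangulated

universe v u

namespace MP_14a437_ag

variable {C : Type u} [Category.{v} C] [Preadditive C] [HasZeroObject C] [HasShift C ℤ]
  [∀ n : ℤ, (shiftFunctor C n).Additive] [Pretriangulated C] [IsTriangulated C]

variable {k : Type*} [Field k] [IsAlgClosed k] [Linear k C]

/-- the numerical core -/
theorem weight_core (hCY : IsCY2 C k) (σ : StabCond C) (θ : ℝ) {n : ℕ} (s : Fin n → C)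
    (hs : ∀ i, TSimple (σ.P θ) (s i)) {K : ℝ} (hK0 : 0 ≤ K)
    (hK : ∀ q : Fin n → ℤ, ∑ i, (q i : ℝ) ^ 2 ≤
      K * (eulerForm hCY (∑ i, q i • cl (s i)) (∑ i, q i • cl (s i)) : ℝ)) (c : Fin n → ℕ)
    {Q : C} (hQ : σ.P θ Q) (q : Fin n → ℕ) (hq : cl Q = ∑ i, (q i : ℤ) • cl (s i))
    (hle : Module.finrank k (Q ⟶ Q) ≤ ∑ i, q i * c i) :
    wt σ θ (cl Q) ≤ (n * (2 * K * (∑ i, c i : ℕ))) * ∑ i, wt σ θ (cl (s i)) := by
  have hw : ∀ i, 0 ≤ wt σ θ (cl (s i)) := fun i => by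
    rw [wt_eq_norm σ θ (hs i).1]; exact norm_nonneg _
  have h1 := hK (fun i => (q i : ℤ))
  rw [← hq, eulerForm_cl] at h1
  have h2 : (chi k Q Q : ℝ) ≤ 2 * (∑ i, q i * c i : ℕ) := by
    have h3 := chi_adm hCY (P_isAdm σ θ) hQ hQ
    have h4 : chi k Q Q ≤ 2 * ((∑ i, q i * c i : ℕ) : ℤ) := by
      rw [h3]
      have h5 : (Module.finrank k (Q ⟶ Q) : ℤ) ≤ ((∑ i, q i * c i : ℕ) : ℤ) := by
        exact_mod_cast hle
      have h6 : (0 : ℤ) ≤ (Module.finrank k (Q ⟶ Q⟦(1 : ℤ)⟧) : ℤ) := by positivity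
      linarith
    exact_mod_cast h4
  set t : ℝ := ∑ i, (q i : ℝ) with ht
  have ht0 : 0 ≤ t := Finset.sum_nonneg fun i _ => by positivity
  have h3 : ((∑ i, q i * c i : ℕ) : ℝ) ≤ (∑ i, c i : ℕ) * t := by
    push_cast
    rw [ht, Finset.mul_sum]
    refine Finset.sum_le_sum fun i _ => ?_
    rw [mul_comm]
    refine mul_le_mul_of_nonneg_right ?_ (by positivity)
    exact Finset.single_le_sum (f := fun i => (c i : ℝ)) (fun j _ => by positivity)
      (Finset.mem_univ i)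
  have h4 : t ^ 2 ≤ n * ∑ i, (q i : ℝ) ^ 2 := by
    have := sq_sum_le_card_mul_sum_sq (s := (Finset.univ : Finset (Fin n)))
      (f := fun i => (q i : ℝ))
    simpa using this
  have h5 : ∑ i, (q i : ℝ) ^ 2 ≤ 2 * K * (∑ i, c i : ℕ) * t := by
    have h6 : ∑ i, (q i : ℝ) ^ 2 ≤ K * (chi k Q Q : ℝ) := by simpa using h1
    calc ∑ i, (q i : ℝ) ^ 2 ≤ K * (chi k Q Q : ℝ) := h6
      _ ≤ K * (2 * ((∑ i, c i : ℕ) * t)) :=
          mul_le_mul_of_nonneg_left (h2.trans (by linarith)) hK0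
      _ = _ := by ring
  have h6 : t ≤ n * (2 * K * (∑ i, c i : ℕ)) := by
    rcases ht0.eq_or_lt with h | h
    · rw [← h]; positivity
    · have h7 : t * t ≤ (n * (2 * K * (∑ i, c i : ℕ))) * t := by
        calc t * t = t ^ 2 := by ring
          _ ≤ n * ∑ i, (q i : ℝ) ^ 2 := h4
          _ ≤ n * (2 * K * (∑ i, c i : ℕ) * t) :=
              mul_le_mul_of_nonneg_left h5 (by positivity)
          _ = _ := by ring
      exact le_of_mul_le_mul_right h7 h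
  have h7 : wt σ θ (cl Q) ≤ t * ∑ i, wt σ θ (cl (s i)) := by
    rw [hq, map_sum, ht, Finset.sum_mul]
    refine Finset.sum_le_sum fun i _ => ?_
    rw [map_zsmul, zsmul_eq_mul]
    push_cast
    refine mul_le_mul_of_nonneg_left ?_ (by positivity)
    exact Finset.single_le_sum (f := fun i => wt σ θ (cl (s i))) (fun j _ => hw j)
      (Finset.mem_univ i)
  exact h7.trans (mul_le_mul_of_nonneg_right h6 (Finset.sum_nonneg fun i _ => hw i))

/-- there are no morphisms from `A[1]` to `B` for `A, B` in the heart -/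
theorem heart_shift_zero (σ : StabCond C) (a : ℝ) {A B : C} (hA : σ.heart a A)
    (hB : σ.heart a B) (f : A⟦(1 : ℤ)⟧ ⟶ B) : f = 0 := by
  refine PS_hom_zero σ.toSlicing (I := Set.Ioc (a + 1) (a + 2)) (J := Set.Ioc a (a + 1)) ?_ ?_ hB f
  · intro φ hφ ψ hψ
    exact lt_of_le_of_lt hψ.2 hφ.1
  · refine PS_shiftn σ.toSlicing 1 ?_ hA
    intro φ hφ
    constructor
    · have := hφ.1; push_cast; linarith
    · have := hφ.2; push_cast; linarith

theorem weight_bound [Module.Free ℤ (K0 C)] [Module.Finite ℤ (K0 C)] (hCY : IsCY2 C k)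
    (hpsd : ∀ x, 0 ≤ eulerForm hCY x x) (σ : StabCond C) (θ : ℝ)
    (hno : ∀ E : C, σ.P θ E → ¬ IsZero E → cl E ∉ radical hCY) {E : C}
    (hE : σ.heart (θ - 1) E) :
    ∃ R : ℝ, ∀ (A B : C) (f : A ⟶ E) (g : E ⟶ B) (h : B ⟶ A⟦(1 : ℤ)⟧),
      Triangle.mk f g h ∈ distTriang C → σ.heart (θ - 1) A → σ.heart (θ - 1) B →
        (σ.P θ A → wt σ θ (cl A) ≤ R) ∧ (σ.P θ B → wt σ θ (cl B) ≤ R) := by
  obtain ⟨n, s, hs, hne, hall⟩ := finite_simples hCY hpsd σ θ hno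
  obtain ⟨K, hK0, hK⟩ := pos_def hCY hpsd σ θ hno s hs hne
  set R1 : ℝ := (n * (2 * K * (∑ i, Module.finrank k (E ⟶ s i) : ℕ))) *
    ∑ i, wt σ θ (cl (s i)) with hR1
  set R2 : ℝ := (n * (2 * K * (∑ i, Module.finrank k (s i ⟶ E) : ℕ))) *
    ∑ i, wt σ θ (cl (s i)) with hR2
  refine ⟨max R1 R2, fun A B f g h hT hA hB => ⟨fun hAP => ?_, fun hBP => ?_⟩⟩
  · refine le_trans ?_ (le_max_right R1 R2)
    obtain ⟨q, hq, hmul⟩ := exists_mult hCY s hall (P_finiteLength σ θ A hAP)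
    refine weight_core hCY σ θ s hs hK0 hK (fun i => Module.finrank k (s i ⟶ E)) hAP q hq ?_
    refine le_trans ?_ (hmul E).2
    haveI : Module.Finite k (A ⟶ E) := hCY.hom_finite _ _
    refine LinearMap.finrank_le_finrank_of_injective (f := Linear.rightComp k A f) ?_
    rw [injective_iff_map_eq_zero]
    intro u hu
    have hu' : u ≫ f = 0 := hu
    have h1 : u⟦(1 : ℤ)⟧' ≫ f⟦(1 : ℤ)⟧' = 0 := by
      rw [← Functor.map_comp, hu', Functor.map_zero]
    obtain ⟨u', hu'⟩ := Triangle.coyoneda_exact₁ _ hT (u⟦(1 : ℤ)⟧') h1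
    have h2 : u' = 0 := heart_shift_zero σ (θ - 1) hA hB u'
    rw [h2, zero_comp] at hu'
    exact (shiftFunctor C (1 : ℤ)).map_injective (hu'.trans (Functor.map_zero _ _ _).symm)
  · refine le_trans ?_ (le_max_left R1 R2)
    obtain ⟨q, hq, hmul⟩ := exists_mult hCY s hall (P_finiteLength σ θ B hBP)
    refine weight_core hCY σ θ s hs hK0 hK (fun i => Module.finrank k (E ⟶ s i)) hBP q hq ?_
    refine le_trans ?_ (hmul E).1
    haveI : Module.Finite k (E ⟶ B) := hCY.hom_finite _ _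
    refine LinearMap.finrank_le_finrank_of_injective (f := Linear.leftComp k B g) ?_
    rw [injective_iff_map_eq_zero]
    intro u hu
    have hu' : g ≫ u = 0 := hu
    obtain ⟨u', hu'⟩ := Triangle.yoneda_exact₃ _ hT u hu'
    have h2 : u' = 0 := heart_shift_zero σ (θ - 1) hA hB u'
    rw [h2, comp_zero] at hu'
    exact hu'

end MP_14a437_ag
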