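import Pool.Agent.Work.MP_14a437_ag.S.AdmH
import Pool.Agent.Work.MP_14a437_ag.S.AdmP
import Pool.Agent.Work.MP_14a437_ag.T.Mass

/-!
# B/Ht  (M) : the height function on the heart `P((θ-1, θ])`

`ht σ θ x = - Im (exp(-π i θ) Z x)`, `wt σ θ x = Re (exp(-π i θ) Z x)`.
`ht_nonneg`: induction on the HN filtration; a factor `A` of phase `φ ∈ (θ-1, θ]` has
`ht = - ‖Z A‖ sin(π(φ-θ)) ≥ 0`, with equality only for `φ = θ` (compare `PS_im_nonneg`); `cl_tri`.
`P_of_sub`, `P_of_quot`: `ht` is additive and nonnegative on the heart, so it is zero on both ends.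
`P_le_heart`: `hn_single`.  `tsimple_heart`: by `P_of_sub`, `P_of_quot`.
-/

open CategoryTheory CategoryTheory.Limits CategoryTheory.Pretriangulated

universe v u

namespace MP_14a437_ag

variable {C : Type u} [Category.{v} C] [Preadditive C] [HasZeroObject C] [HasShift C ℤ]
  [∀ n : ℤ, (shiftFunctor C n).Additive] [Pretriangulated C] [IsTriangulated C]

/-- the height function -/
noncomputable def ht (σ : StabCond C) (θ : ℝ) : K0 C →+ ℝ where
  toFun x := - (Complex.exp (-(Real.pi * θ * Complex.I)) * σ.Z x).im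
  map_zero' := by simp
  map_add' x y := by simp only [map_add, mul_add, Complex.add_im]; ring

/-- the weight function; on `P θ` it is `‖Z‖` -/
noncomputable def wt (σ : StabCond C) (θ : ℝ) : K0 C →+ ℝ where
  toFun x := (Complex.exp (-(Real.pi * θ * Complex.I)) * σ.Z x).re
  map_zero' := by simp
  map_add' x y := by simp only [map_add, mul_add, Complex.add_re]

omit [IsTriangulated C] in
private theorem rot_formula (σ : StabCond C) (θ φ : ℝ) {A : C} (hA : σ.P φ A)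
    (h0 : ¬ IsZero A) :
    ∃ m : ℝ, 0 < m ∧ Complex.exp (-(Real.pi * θ * Complex.I)) * σ.Z (cl A) =
      (m : ℂ) * Complex.exp (((Real.pi * (φ - θ) : ℝ) : ℂ) * Complex.I) := by
  obtain ⟨m, hm, hZ⟩ := σ.compat φ A hA h0
  refine ⟨m, hm, ?_⟩
  rw [hZ, mul_left_comm, ← Complex.exp_add]
  congr 2
  push_cast
  ring

omit [IsTriangulated C] in
private theorem ht_formula (σ : StabCond C) (θ φ : ℝ) {A : C} (hA : σ.P φ A)
    (h0 : ¬ IsZero A) :
    ∃ m : ℝ, 0 < m ∧ ht σ θ (cl A) = m * Real.sin (Real.pi * (θ - φ)) := by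
  obtain ⟨m, hm, h⟩ := rot_formula σ θ φ hA h0
  refine ⟨m, hm, ?_⟩
  change - (Complex.exp (-(Real.pi * θ * Complex.I)) * σ.Z (cl A)).im = _
  rw [h, Complex.im_ofReal_mul, Complex.exp_ofReal_mul_I_im]
  have : Real.pi * (φ - θ) = -(Real.pi * (θ - φ)) := by ring
  rw [this, Real.sin_neg]
  ring

private theorem sin_aux {t : ℝ} (h0 : 0 ≤ t) (h1 : t < 1) :
    0 ≤ Real.sin (Real.pi * t) ∧ (Real.sin (Real.pi * t) = 0 → t = 0) := by
  have hpi := Real.pi_pos
  refine ⟨Real.sin_nonneg_of_nonneg_of_le_pi (by positivity) (by nlinarith), fun h => ?_⟩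
  by_contra hne
  have hlt : 0 < t := lt_of_le_of_ne h0 (Ne.symm hne)
  have := Real.sin_pos_of_pos_of_lt_pi (x := Real.pi * t) (by positivity) (by nlinarith)
  exact this.ne' h

omit [IsTriangulated C] in
private theorem hn_ht (σ : StabCond C) (θ : ℝ) {E : C} {l : List ℝ} (hE : HN σ.P E l)
    (hl : ∀ ψ ∈ l, ψ ∈ Set.Ioc (θ - 1) (θ - 1 + 1)) :
    0 ≤ ht σ θ (cl E) ∧ (ht σ θ (cl E) = 0 → ∀ ψ ∈ l, ψ = θ) := by
  induction hE with
  | zero h0 =>
    rw [cl_zero h0, map_zero]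
    exact ⟨le_refl _, fun _ ψ hψ => by simp at hψ⟩
  | @cons E' E A l χ f g h hT hE' hA hA0 hlt ih =>
    obtain ⟨i1, i2⟩ := ih (fun ψ hψ => hl ψ (List.mem_cons_of_mem _ hψ))
    obtain ⟨m, hm, hA1⟩ := ht_formula σ θ χ hA hA0
    have hχ := hl χ List.mem_cons_self
    obtain ⟨s1, s2⟩ := sin_aux (t := θ - χ) (by linarith [hχ.2]) (by linarith [hχ.1])
    have e1 : ht σ θ (cl E) = ht σ θ (cl E') + m * Real.sin (Real.pi * (θ - χ)) := by
      rw [cl_tri f g h hT, map_add, hA1]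
    have hms : 0 ≤ m * Real.sin (Real.pi * (θ - χ)) := mul_nonneg hm.le s1
    rw [e1]
    refine ⟨by linarith, fun h0 ψ hψ => ?_⟩
    have k1 : m * Real.sin (Real.pi * (θ - χ)) = 0 := by linarith
    have k2 : ht σ θ (cl E') = 0 := by linarith
    rcases List.mem_cons.1 hψ with rfl | hψ
    · have := s2 ((mul_eq_zero.1 k1).resolve_left hm.ne')
      linarith
    · exact i2 k2 ψ hψ

omit [IsTriangulated C] in
theorem ht_nonneg (σ : StabCond C) (θ : ℝ) {E : C} (hE : σ.heart (θ - 1) E) :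
    0 ≤ ht σ θ (cl E) := by
  obtain ⟨l, hl, hlI⟩ := hE
  exact (hn_ht σ θ hl hlI).1

omit [IsTriangulated C] in
theorem P_of_ht_eq_zero (σ : StabCond C) (θ : ℝ) {E : C} (hE : σ.heart (θ - 1) E)
    (h0 : ht σ θ (cl E) = 0) : σ.P θ E := by
  obtain ⟨l, hl, hlI⟩ := hE
  exact (PS_singleton σ.toSlicing θ E).1 ⟨l, hl, fun ψ hψ => (hn_ht σ θ hl hlI).2 h0 ψ hψ⟩

omit [IsTriangulated C] in
theorem ht_eq_zero (σ : StabCond C) (θ : ℝ) {E : C} (hE : σ.P θ E) : ht σ θ (cl E) = 0 := by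
  by_cases h0 : IsZero E
  · rw [cl_zero h0, map_zero]
  · obtain ⟨m, -, h⟩ := ht_formula σ θ θ hE h0
    rw [h, sub_self, mul_zero, Real.sin_zero, mul_zero]

omit [IsTriangulated C] in
theorem wt_eq_norm (σ : StabCond C) (θ : ℝ) {E : C} (hE : σ.P θ E) :
    wt σ θ (cl E) = ‖σ.Z (cl E)‖ := by
  by_cases h0 : IsZero E
  · rw [cl_zero h0, map_zero, map_zero, norm_zero]
  · obtain ⟨m, hm, h⟩ := rot_formula σ θ θ hE h0
    have e1 : Complex.exp (-(Real.pi * θ * Complex.I)) * σ.Z (cl E) = (m : ℂ) := by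
      rw [h, sub_self, mul_zero, Complex.ofReal_zero, zero_mul, Complex.exp_zero, mul_one]
    have e2 : ‖σ.Z (cl E)‖ = m := by
      have e3 : ‖Complex.exp (-(Real.pi * θ * Complex.I))‖ = 1 := by
        have : (-(Real.pi * θ * Complex.I) : ℂ) = ((-(Real.pi * θ) : ℝ) : ℂ) * Complex.I := by
          push_cast
          ring
        rw [this, Complex.norm_exp_ofReal_mul_I]
      have e4 := congrArg norm e1
      rw [norm_mul, e3, one_mul, Complex.norm_real, Real.norm_of_nonneg hm.le] at e4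
      exact e4
    rw [e2]
    change (Complex.exp (-(Real.pi * θ * Complex.I)) * σ.Z (cl E)).re = m
    rw [e1, Complex.ofReal_re]

omit [IsTriangulated C] in
theorem P_le_heart (σ : StabCond C) (θ : ℝ) {E : C} (hE : σ.P θ E) : σ.heart (θ - 1) E := by
  refine PS_mono σ.toSlicing (I := {θ}) ?_ ((PS_singleton σ.toSlicing θ E).2 hE)
  rintro ψ rfl
  exact ⟨by linarith, by linarith⟩

omit [IsTriangulated C] in
theorem P_of_tri (σ : StabCond C) (θ : ℝ) {A E B : C} (f : A ⟶ E) (g : E ⟶ B)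
    (h : B ⟶ A⟦(1 : ℤ)⟧) (hT : Triangle.mk f g h ∈ distTriang C) (hE : σ.P θ E)
    (hA : σ.heart (θ - 1) A) (hB : σ.heart (θ - 1) B) : σ.P θ A ∧ σ.P θ B := by
  have h1 := ht_nonneg σ θ hA
  have h2 := ht_nonneg σ θ hB
  have h3 : ht σ θ (cl E) = ht σ θ (cl A) + ht σ θ (cl B) := by
    rw [cl_tri f g h hT, map_add]
  rw [ht_eq_zero σ θ hE] at h3
  exact ⟨P_of_ht_eq_zero σ θ hA (by linarith), P_of_ht_eq_zero σ θ hB (by linarith)⟩

omit [IsTriangulated C] in
theorem tsimple_heart (σ : StabCond C) (θ : ℝ) {X : C} (hX : TSimple (σ.P θ) X) :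
    TSimple (σ.heart (θ - 1)) X := by
  refine ⟨P_le_heart σ θ hX.1, hX.2.1, ?_⟩
  intro A B f g h hT hA hB
  obtain ⟨h1, h2⟩ := P_of_tri σ θ f g h hT hX.1 hA hB
  exact hX.2.2 A B f g h hT h1 h2

end MP_14a437_ag
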