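import Pool.Agent.Work.MP_14a437_ag.B.Ht
import Pool.Agent.Work.MP_14a437_ag.T.Index
import Pool.Agent.Work.MP_14a437_ag.L.Psd1
import Pool.Agent.Work.MP_14a437_ag.L.FinRad
import Pool.Agent.Work.MP_14a437_ag.A.Chi
import Pool.Agent.Work.MP_14a437_ag.E.Form

/-!
# B/Idx  (M) : if `P θ` has no object of radical class then it has finitely many simple objects

Take `I, s` from `exists_index (TSimple (σ.P θ))`.  For `i ≠ j`: `χ(s i, s j) ≤ 0` (`chi_simple_ne`,
`P_isAdm`), `χ(s i, s i) ≤ 2` (`chi_simple_self`).  Let `F` be the finite set of `finite_mod_radical` for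
`N = 2`; for each `i` choose `f i ∈ F` with `cl (s i) - f i ∈ radical`.  `f` is injective: if `f i = f j`,
`i ≠ j`, then `cl (s i) - cl (s j)` is radical, so `χ(s i, s i) = χ(s i, s j) ≤ 0`, so `χ(s i,s i) = 0` and
`cl (s i)` is radical (semidefinite form: `psd_radical_form` below), contradicting `hno`.  So `I` is
finite; transport to `Fin n` (`Finite.equivFin`).
-/

open CategoryTheory CategoryTheory.Limits CategoryTheory.Pretriangulated

universe v u

namespace MP_14a437_ag

variable {C : Type u} [Category.{v} C] [Preadditive C] [HasZeroObject C] [HasShift C ℤ]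
  [∀ n : ℤ, (shiftFunctor C n).Additive] [Pretriangulated C] [IsTriangulated C]

variable {k : Type*} [Field k] [IsAlgClosed k] [Linear k C]

omit [IsTriangulated C] [IsAlgClosed k] in
/-- a class with `χ(x,x) = 0` is radical when `χ` is semidefinite:
`0 ≤ χ(n x + y, n x + y) = 2 n χ(x,y) + χ(y,y)` for all `n : ℤ`. -/
theorem psd_radical_form (hCY : IsCY2 C k) (hpsd : ∀ x, 0 ≤ eulerForm hCY x x) {x : K0 C}
    (hx : eulerForm hCY x x = 0) : x ∈ radical hCY := by
  rw [mem_radical]
  intro y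
  have hl : ∀ (n : ℤ) (a b : K0 C), eulerForm hCY (n • a) b = n * eulerForm hCY a b := by
    intro n a b
    rw [eulerForm_symm hCY (n • a) b, map_zsmul, smul_eq_mul, eulerForm_symm hCY b a]
  have hc := hpsd y
  set b := eulerForm hCY x y with hb
  set c := eulerForm hCY y y with hcd
  have h := hpsd ((-(c + 1) * b) • x + y)
  have e1 : eulerForm hCY ((-(c + 1) * b) • x + y) ((-(c + 1) * b) • x + y) =
      2 * (-(c + 1) * b) * b + c := by
    rw [map_add (eulerForm hCY ((-(c + 1) * b) • x + y)), map_zsmul, smul_eq_mul,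
      map_add (eulerForm hCY), AddMonoidHom.add_apply, AddMonoidHom.add_apply, hl, hl, hx,
      eulerForm_symm hCY y x, ← hb, ← hcd]
    ring
  rw [e1] at h
  by_contra hne
  have h1 : 1 ≤ b * b := by
    have := mul_self_pos.2 hne
    omega
  nlinarith

theorem finite_simples [Module.Free ℤ (K0 C)] [Module.Finite ℤ (K0 C)] (hCY : IsCY2 C k)
    (hpsd : ∀ x, 0 ≤ eulerForm hCY x x) (σ : StabCond C) (θ : ℝ)
    (hno : ∀ E : C, σ.P θ E → ¬ IsZero E → cl E ∉ radical hCY) :
    ∃ (n : ℕ) (s : Fin n → C), (∀ i, TSimple (σ.P θ) (s i)) ∧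
      (∀ i j, i ≠ j → IsEmpty (s i ≅ s j)) ∧
      ∀ X, TSimple (σ.P θ) X → ∃ i, Nonempty (X ≅ s i) := by
  obtain ⟨I, s, hsT, hsne, hsall⟩ := exists_index (TSimple (σ.P θ))
  obtain ⟨F, hF⟩ := finite_mod_radical (eulerForm hCY) (eulerForm_symm hCY) hpsd 2
  have hle : ∀ i, eulerForm hCY (cl (s i)) (cl (s i)) ≤ 2 := by
    intro i
    rw [eulerForm_cl]
    exact chi_simple_self hCY (P_isAdm σ θ) (hsT i)
  choose f hfF hf using fun i => hF (cl (s i)) (hle i)
  have hinj : Function.Injective (fun i => (⟨f i, hfF i⟩ : F)) := by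
    intro i j hij
    by_contra hne
    have hij' : f i = f j := congrArg Subtype.val hij
    have h1 : ∀ y, eulerForm hCY (cl (s i)) y = eulerForm hCY (cl (s j)) y := by
      intro y
      have a1 := hf i y
      have a2 := hf j y
      rw [map_sub, AddMonoidHom.sub_apply, sub_eq_zero] at a1 a2
      rw [a1, a2, hij']
    have h2 : eulerForm hCY (cl (s i)) (cl (s i)) ≤ 0 := by
      rw [h1, eulerForm_cl]
      exact (chi_simple_ne hCY (P_isAdm σ θ) (hsT j) (hsT i) (hsne j i (Ne.symm hne))).1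
    have h3 : eulerForm hCY (cl (s i)) (cl (s i)) = 0 := le_antisymm h2 (hpsd _)
    exact hno (s i) (hsT i).1 (hsT i).2.1 (psd_radical_form hCY hpsd h3)
  have hfin : Finite I := Finite.of_injective _ hinj
  obtain ⟨n, ⟨e⟩⟩ := Finite.exists_equiv_fin I
  refine ⟨n, fun a => s (e.symm a), fun a => hsT _, fun a b hab => ?_, fun X hX => ?_⟩
  · exact hsne _ _ (fun h => hab (e.symm.injective h))
  · obtain ⟨i, ⟨hi⟩⟩ := hsall X hX
    refine ⟨e i, ?_⟩
    change Nonempty (X ≅ s (e.symm (e i)))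
    rw [e.symm_apply_apply]
    exact ⟨hi⟩

end MP_14a437_ag
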