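import Pool.Agent.Work.MP_14a437_ag.B.Ht
import Pool.Agent.Work.MP_14a437_ag.T.Gap

/-!
# B/Max  (M-L) : removing the maximal subobject and quotient in `P θ`

Let `E` be in the heart, and suppose the weights of subobjects and quotients of `E` and of all objects of
the heart in `P θ` are bounded (`hR`).
`max_sub`: let `ε` be as in `exists_mass_bound` (`wt = ‖Z‖ ≥ ε` on nonzero objects of `P θ`).  Choose
`A → E → B` with `A ∈ P θ`, `wt A > sup - ε`.  If `A' → B → B'` with `A' ∈ P θ`, let `A''` be the fibre of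
`E → B → B'`; the octahedral axiom gives `A → A'' → A'`, so `A'' ∈ P θ` (`P_ext`) and
`wt A'' = wt A + wt A' `, so `wt A' < ε` and `A' = 0`.
`max_quot`: dually: choose `A → E → B` with `B ∈ P θ` and `wt B > sup - ε`; if `A' → A → B'` with
`B' ∈ P θ` then the cone `B''` of `A' → A → E` is an extension of `B` by `B'`.
-/

open CategoryTheory CategoryTheory.Limits CategoryTheory.Pretriangulated ZeroObject

universe v u

namespace MP_14a437_ag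

variable {C : Type u} [Category.{v} C] [Preadditive C] [HasZeroObject C] [HasShift C ℤ]
  [∀ n : ℤ, (shiftFunctor C n).Additive] [Pretriangulated C] [IsTriangulated C]

private theorem exists_near_sup {S : Set ℝ} (h1 : S.Nonempty) (h2 : BddAbove S) {ε : ℝ}
    (hε : 0 < ε) : ∃ a ∈ S, ∀ b ∈ S, b < a + ε := by
  obtain ⟨a, ha, hlt⟩ := exists_lt_of_lt_csSup h1 (sub_lt_self (sSup S) hε)
  refine ⟨a, ha, fun b hb => ?_⟩
  have := le_csSup h2 hb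
  linarith

theorem max_sub [Module.Free ℤ (K0 C)] [Module.Finite ℤ (K0 C)] (σ : StabCond C) (θ : ℝ) {E : C}
    (hE : σ.heart (θ - 1) E)
    (hR : ∃ R : ℝ, ∀ (A B : C) (f : A ⟶ E) (g : E ⟶ B) (h : B ⟶ A⟦(1 : ℤ)⟧),
      Triangle.mk f g h ∈ distTriang C → σ.heart (θ - 1) A → σ.heart (θ - 1) B →
        σ.P θ A → wt σ θ (cl A) ≤ R) :
    ∃ (A B : C) (f : A ⟶ E) (g : E ⟶ B) (h : B ⟶ A⟦(1 : ℤ)⟧),
      Triangle.mk f g h ∈ distTriang C ∧ σ.P θ A ∧ σ.heart (θ - 1) B ∧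
      ∀ (A' B' : C) (f' : A' ⟶ B) (g' : B ⟶ B') (h' : B' ⟶ A'⟦(1 : ℤ)⟧),
        Triangle.mk f' g' h' ∈ distTriang C → σ.P θ A' → σ.heart (θ - 1) B' → IsZero A' := by
  obtain ⟨ε, hε, hmass⟩ := exists_mass_bound σ
  obtain ⟨R, hR⟩ := hR
  obtain ⟨S, hS⟩ : ∃ S : Set ℝ, S = {x | ∃ (A B : C) (f : A ⟶ E) (g : E ⟶ B)
      (h : B ⟶ A⟦(1 : ℤ)⟧), Triangle.mk f g h ∈ distTriang C ∧ σ.P θ A ∧
        σ.heart (θ - 1) B ∧ x = wt σ θ (cl A)} := ⟨_, rfl⟩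
  have hne : S.Nonempty := by
    refine ⟨wt σ θ (cl (0 : C)), ?_⟩
    rw [hS]
    exact ⟨0, E, 0, 𝟙 E, 0, contractible_distinguished₁ E, σ.zero θ _ (isZero_zero C), hE, rfl⟩
  have hbd : BddAbove S := by
    refine ⟨R, ?_⟩
    intro x hx
    rw [hS] at hx
    obtain ⟨A, B, f, g, h, hT, hA, hB, rfl⟩ := hx
    exact hR A B f g h hT (P_le_heart σ θ hA) hB hA
  obtain ⟨x, hx, hmax⟩ := exists_near_sup hne hbd hε
  rw [hS] at hx
  obtain ⟨A, B, f, g, h, hT, hA, hB, rfl⟩ := hx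
  refine ⟨A, B, f, g, h, hT, hA, hB, fun A' B' f' g' h' hT' hA' hB' => ?_⟩
  by_contra h0
  obtain ⟨A'', f'', h'', hT''⟩ := distinguished_cocone_triangle₁ (g ≫ g')
  have o := Triangulated.someOctahedron (rfl : g ≫ g' = g ≫ g') (rot_of_distTriang _ hT)
    (rot_of_distTriang _ hT') (rot_of_distTriang _ hT'')
  have hP1 : σ.P (θ + 1) (A⟦(1 : ℤ)⟧) := (σ.shift θ A).2 hA
  have hP2 : σ.P (θ + 1) (A'⟦(1 : ℤ)⟧) := (σ.shift θ A').2 hA'
  have hP3 : σ.P (θ + 1) (A''⟦(1 : ℤ)⟧) := P_ext σ.toSlicing _ _ _ o.mem hP1 hP2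
  have hA'' : σ.P θ A'' := (σ.shift θ A'').1 hP3
  have hcl := cl_tri _ _ _ o.mem
  have hw : wt σ θ (cl A'') = wt σ θ (cl A) + wt σ θ (cl A') := by
    have h3 := congrArg (wt σ θ) hcl
    simp only [Triangle.mk_obj₁, cl_shift, map_neg, map_add] at h3
    linarith
  have hmem : wt σ θ (cl A'') ∈ S := by
    rw [hS]
    exact ⟨A'', B', f'', g ≫ g', h'', hT'', hA'', hB', rfl⟩
  have h4 := hmax _ hmem
  have h5 := hmass θ A' hA' h0
  rw [← wt_eq_norm σ θ hA'] at h5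
  linarith

theorem max_quot [Module.Free ℤ (K0 C)] [Module.Finite ℤ (K0 C)] (σ : StabCond C) (θ : ℝ) {E : C}
    (hE : σ.heart (θ - 1) E)
    (hR : ∃ R : ℝ, ∀ (A B : C) (f : A ⟶ E) (g : E ⟶ B) (h : B ⟶ A⟦(1 : ℤ)⟧),
      Triangle.mk f g h ∈ distTriang C → σ.heart (θ - 1) A → σ.heart (θ - 1) B →
        σ.P θ B → wt σ θ (cl B) ≤ R) :
    ∃ (A B : C) (f : A ⟶ E) (g : E ⟶ B) (h : B ⟶ A⟦(1 : ℤ)⟧),
      Triangle.mk f g h ∈ distTriang C ∧ σ.heart (θ - 1) A ∧ σ.P θ B ∧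
      ∀ (A' B' : C) (f' : A' ⟶ A) (g' : A ⟶ B') (h' : B' ⟶ A'⟦(1 : ℤ)⟧),
        Triangle.mk f' g' h' ∈ distTriang C → σ.heart (θ - 1) A' → σ.P θ B' → IsZero B' := by
  obtain ⟨ε, hε, hmass⟩ := exists_mass_bound σ
  obtain ⟨R, hR⟩ := hR
  obtain ⟨S, hS⟩ : ∃ S : Set ℝ, S = {x | ∃ (A B : C) (f : A ⟶ E) (g : E ⟶ B)
      (h : B ⟶ A⟦(1 : ℤ)⟧), Triangle.mk f g h ∈ distTriang C ∧ σ.heart (θ - 1) A ∧
        σ.P θ B ∧ x = wt σ θ (cl B)} := ⟨_, rfl⟩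
  have hne : S.Nonempty := by
    refine ⟨wt σ θ (cl (0 : C)), ?_⟩
    rw [hS]
    exact ⟨E, 0, 𝟙 E, 0, 0, contractible_distinguished E, hE, σ.zero θ _ (isZero_zero C), rfl⟩
  have hbd : BddAbove S := by
    refine ⟨R, ?_⟩
    intro x hx
    rw [hS] at hx
    obtain ⟨A, B, f, g, h, hT, hA, hB, rfl⟩ := hx
    exact hR A B f g h hT hA (P_le_heart σ θ hB) hB
  obtain ⟨x, hx, hmax⟩ := exists_near_sup hne hbd hε
  rw [hS] at hx
  obtain ⟨A, B, f, g, h, hT, hA, hB, rfl⟩ := hx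
  refine ⟨A, B, f, g, h, hT, hA, hB, fun A' B' f' g' h' hT' hA' hB' => ?_⟩
  by_contra h0
  obtain ⟨B'', g'', h'', hT''⟩ := distinguished_cocone_triangle (f' ≫ f)
  have o := Triangulated.someOctahedron (rfl : f' ≫ f = f' ≫ f) hT' hT hT''
  have hB'' : σ.P θ B'' := P_ext σ.toSlicing _ _ _ o.mem hB' hB
  have hcl := cl_tri _ _ _ o.mem
  have hw : wt σ θ (cl B'') = wt σ θ (cl B') + wt σ θ (cl B) := by
    rw [hcl, map_add]
  have hmem : wt σ θ (cl B'') ∈ S := by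
    rw [hS]
    exact ⟨A', B'', f' ≫ f, g'', h'', hT'', hA', hB'', rfl⟩
  have h4 := hmax _ hmem
  have h5 := hmass θ B' hB' h0
  rw [← wt_eq_norm σ θ hB'] at h5
  linarith

end MP_14a437_ag
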