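import Pool.Agent.Work.MP_14a437_ag.B.Bound
import Pool.Agent.Work.MP_14a437_ag.B.Max

/-!
# B/Ind  (M-L) : then the heart `P((θ-1,θ])` has finite length

`hdisc`: the height takes discrete values.  Strong induction on `n : ℕ` with `ht (cl E) ≤ n δ`, `E` in the
heart `H = P((θ-1,θ])`.  If `ht (cl E) = 0`, `E ∈ P θ` (`P_of_ht_eq_zero`), and `P_finiteLength` with
`tsimple_heart` and `Ext_mono`.  Otherwise `A → E → E₁` from `max_sub` (`weight_bound`),
`E₂ → E₁ → Q` from `max_quot`.  `A, Q ∈ P θ` are in `Ext (TSimple H)`; it is enough to treat `E₂`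
(`Ext.ext` twice).  `E₂` has no nonzero quotient in `P θ`, and no nonzero subobject in `P θ`: for
`A' → E₂ → B'`, the cone `B''` of `A' → E₂ → E₁` is an extension of `Q` by `B'` (octahedron), so it is in
`H`, so `A' = 0` by the property of `E₁`.  If `E₂` is zero or `TSimple H`: done.  Otherwise there is
`A' → E₂ → B'` in `H` with `A', B'` nonzero; then `ht A', ht B' > 0` (else in `P θ`), so `≥ δ` by
`hdisc`, and both are `≤ ht E₂ - δ ≤ ht E - δ`; induction.
-/

open CategoryTheory CategoryTheory.Limits CategoryTheory.Pretriangulated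

universe v u

namespace MP_14a437_ag

variable {C : Type u} [Category.{v} C] [Preadditive C] [HasZeroObject C] [HasShift C ℤ]
  [∀ n : ℤ, (shiftFunctor C n).Additive] [Pretriangulated C] [IsTriangulated C]

variable {k : Type*} [Field k] [IsAlgClosed k] [Linear k C]

theorem finiteLength_of_no_radical [Module.Free ℤ (K0 C)] [Module.Finite ℤ (K0 C)]
    (hCY : IsCY2 C k) (hpsd : ∀ x, 0 ≤ eulerForm hCY x x) (σ : StabCond C) (θ : ℝ)
    {δ : ℝ} (hδ : 0 < δ) (hdisc : ∀ x : K0 C, 0 < ht σ θ x → δ ≤ ht σ θ x)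
    (hno : ∀ E : C, σ.P θ E → ¬ IsZero E → cl E ∉ radical hCY) :
    FiniteLength (σ.heart (θ - 1)) := by
  have hAdm := heart_isAdm σ.toSlicing (θ - 1)
  have hP : ∀ E : C, σ.P θ E → Ext (TSimple (σ.heart (θ - 1))) E := fun E hE =>
    Ext_mono (fun X hX => tsimple_heart σ θ hX) (P_finiteLength σ θ E hE)
  suffices H : ∀ (n : ℕ) (E : C), σ.heart (θ - 1) E → ht σ θ (cl E) ≤ n * δ →
      Ext (TSimple (σ.heart (θ - 1))) E by
    intro E hE
    obtain ⟨n, hn⟩ := exists_nat_ge (ht σ θ (cl E) / δ)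
    exact H n E hE (by rwa [div_le_iff₀ hδ] at hn)
  intro n
  induction n with
  | zero =>
    intro E hE hn
    have h0 := ht_nonneg σ θ hE
    exact hP E (P_of_ht_eq_zero σ θ hE (le_antisymm (by simpa using hn) h0))
  | succ n ih =>
    intro E hE hn
    obtain ⟨A, E₁, f, g, h, hT, hA, hE₁, hmaxA⟩ := max_sub σ θ hE (by
      obtain ⟨R, hR⟩ := weight_bound hCY hpsd σ θ hno hE
      exact ⟨R, fun A B f g h hT hA hB => (hR A B f g h hT hA hB).1⟩)
    obtain ⟨E₂, Q, f₁, g₁, h₁, hT₁, hE₂, hQ, hmaxQ⟩ := max_quot σ θ hE₁ (by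
      obtain ⟨R, hR⟩ := weight_bound hCY hpsd σ θ hno hE₁
      exact ⟨R, fun A B f g h hT hA hB => (hR A B f g h hT hA hB).2⟩)
    suffices h2 : Ext (TSimple (σ.heart (θ - 1))) E₂ from
      Ext.ext f g h hT (hP A hA) (Ext.ext f₁ g₁ h₁ hT₁ h2 (hP Q hQ))
    have hle : ht σ θ (cl E₂) ≤ ht σ θ (cl E) := by
      rw [cl_tri f g h hT, cl_tri f₁ g₁ h₁ hT₁]
      simp only [map_add]
      rw [ht_eq_zero σ θ hA, ht_eq_zero σ θ hQ]
      simp
    by_cases hz : IsZero E₂
    · exact Ext.zero hz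
    by_cases hs : TSimple (σ.heart (θ - 1)) E₂
    · exact Ext.of hs
    have : ∃ (A' B' : C) (f' : A' ⟶ E₂) (g' : E₂ ⟶ B') (h' : B' ⟶ A'⟦(1 : ℤ)⟧),
        Triangle.mk f' g' h' ∈ distTriang C ∧ σ.heart (θ - 1) A' ∧ σ.heart (θ - 1) B' ∧
          ¬ IsZero A' ∧ ¬ IsZero B' := by
      by_contra hcon
      push Not at hcon
      refine hs ⟨hE₂, hz, fun A' B' f' g' h' hT' hA' hB' => ?_⟩
      by_cases hA0 : IsZero A'
      · exact Or.inl hA0
      · exact Or.inr (hcon A' B' f' g' h' hT' hA' hB' hA0)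
    obtain ⟨A', B', f', g', h', hT', hA', hB', hA0, hB0⟩ := this
    have hsum : ht σ θ (cl E₂) = ht σ θ (cl A') + ht σ θ (cl B') := by
      rw [cl_tri f' g' h' hT', map_add]
    have hposB : 0 < ht σ θ (cl B') := by
      rcases (ht_nonneg σ θ hB').lt_or_eq with h3 | h3
      · exact h3
      · exact absurd (hmaxQ A' B' f' g' h' hT' hA' (P_of_ht_eq_zero σ θ hB' h3.symm)) hB0
    have hposA : 0 < ht σ θ (cl A') := by
      rcases (ht_nonneg σ θ hA').lt_or_eq with h3 | h3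
      · exact h3
      · exfalso
        obtain ⟨B'', g'', h'', hT''⟩ := distinguished_cocone_triangle (f' ≫ f₁)
        have o := Triangulated.someOctahedron rfl hT' hT₁ hT''
        have hB'' : σ.heart (θ - 1) B'' :=
          hAdm.ext _ _ _ o.mem hB' (P_le_heart σ θ hQ)
        exact hA0 (hmaxA A' B'' _ _ _ hT'' (P_of_ht_eq_zero σ θ hA' h3.symm) hB'')
    have hA1 := hdisc _ hposA
    have hB1 := hdisc _ hposB
    push_cast at hn
    have e1 : ht σ θ (cl A') ≤ n * δ := by nlinarith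
    have e2 : ht σ θ (cl B') ≤ n * δ := by nlinarith
    exact Ext.ext f' g' h' hT' (ih A' hA' e1) (ih B' hB' e2)

end MP_14a437_ag
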