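import Pool.Agent.Work.MP_14a437_ag.B.Idx

/-!
# B/Pos  (M) : then the Euler form is positive definite on the classes of `P θ`

`G i j = χ(s i, s j)`, `e(q) = ∑ q i • cl (s i)`.  `G` is symmetric, off-diagonal `≤ 0`, semidefinite, and
`bil G q q = χ(e q, e q)` (`q` as `Fin n →₀ ℤ`, `Finsupp.equivFunOnFinite`).
If `bil G q q = 0` then by `abs_radical` `bil G |q| |q| = 0`, so `e(|q|)` is radical (`psd_radical_form`);
it is the class of the object `⊕ (s i)^{|q i|}` of `P θ` (build it by induction with `σ.biprod`,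
`cl_biprod`), which is nonzero if `q ≠ 0` (its `wt` is `∑ |q i| ‖Z (s i)‖ > 0`, `wt_eq_norm`), contradicting
`hno`.  So `G` has no nonzero radical vector; apply `psd_bound` to `Λ = Fin n → ℤ` (or `→₀`), `B = bil G` and
the coordinate functionals: `(q i)² ≤ K_i χ(e q, e q)`; sum over `i`.
-/

open CategoryTheory CategoryTheory.Limits CategoryTheory.Pretriangulated

universe v u

namespace MP_14a437_ag

variable {C : Type u} [Category.{v} C] [Preadditive C] [HasZeroObject C] [HasShift C ℤ]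
  [∀ n : ℤ, (shiftFunctor C n).Additive] [Pretriangulated C] [IsTriangulated C]

variable {k : Type*} [Field k] [IsAlgClosed k] [Linear k C]

omit [IsTriangulated C] [IsAlgClosed k] in
private theorem pos_bil (hCY : IsCY2 C k) {n : ℕ} (s : Fin n → C) (c d : Fin n →₀ ℤ) :
    bil (fun i j => chi k (s i) (s j)) c d =
      eulerForm hCY (∑ i, c i • cl (s i)) (∑ i, d i • cl (s i)) := by
  have hc : ∀ c : Fin n →₀ ℤ, (∑ i, c i • cl (s i)) = c.sum fun i a => a • cl (s i) := by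
    intro c
    exact (Finsupp.sum_fintype c (fun i a => a • cl (s i)) (fun i => zero_smul ℤ _)).symm
  rw [hc c, hc d]
  unfold bil
  rw [Finsupp.sum, Finsupp.sum, map_sum, AddMonoidHom.finsetSum_apply]
  refine Finset.sum_congr rfl fun i _ => ?_
  rw [Finsupp.sum, Finsupp.sum, map_zsmul, AddMonoidHom.smul_apply, map_sum, Finset.smul_sum]
  refine Finset.sum_congr rfl fun j _ => ?_
  rw [map_zsmul, eulerForm_cl]
  simp only [smul_eq_mul]
  ring

omit [IsTriangulated C] in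
private theorem pos_pow (σ : StabCond C) (θ : ℝ) {X : C} (hX : σ.P θ X) (m : ℕ) :
    ∃ E : C, σ.P θ E ∧ cl E = m • cl X := by
  induction m with
  | zero =>
    obtain ⟨Z, hZ⟩ := HasZeroObject.zero (C := C)
    exact ⟨Z, σ.zero θ Z hZ, by rw [cl_zero hZ, zero_smul]⟩
  | succ m ih =>
    obtain ⟨E, hE, hE2⟩ := ih
    exact ⟨E ⊞ X, σ.biprod θ E X hE hX, by rw [cl_biprod, hE2, succ_nsmul]⟩

omit [IsTriangulated C] in
private theorem pos_obj (σ : StabCond C) (θ : ℝ) {n : ℕ} (s : Fin n → C)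
    (hs : ∀ i, σ.P θ (s i)) (q : Fin n → ℕ) (t : Finset (Fin n)) :
    ∃ E : C, σ.P θ E ∧ cl E = ∑ i ∈ t, q i • cl (s i) := by
  classical
  induction t using Finset.induction_on with
  | empty =>
    obtain ⟨Z, hZ⟩ := HasZeroObject.zero (C := C)
    exact ⟨Z, σ.zero θ Z hZ, by rw [cl_zero hZ, Finset.sum_empty]⟩
  | insert a t ha ih =>
    obtain ⟨E, hE, hE2⟩ := ih
    obtain ⟨F, hF, hF2⟩ := pos_pow σ θ (hs a) (q a)
    exact ⟨F ⊞ E, σ.biprod θ F E hF hE, by rw [cl_biprod, hE2, hF2, Finset.sum_insert ha]⟩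

theorem pos_def [Module.Free ℤ (K0 C)] [Module.Finite ℤ (K0 C)] (hCY : IsCY2 C k)
    (hpsd : ∀ x, 0 ≤ eulerForm hCY x x) (σ : StabCond C) (θ : ℝ)
    (hno : ∀ E : C, σ.P θ E → ¬ IsZero E → cl E ∉ radical hCY) {n : ℕ} (s : Fin n → C)
    (hs : ∀ i, TSimple (σ.P θ) (s i)) (hne : ∀ i j, i ≠ j → IsEmpty (s i ≅ s j)) :
    ∃ K : ℝ, 0 ≤ K ∧ ∀ q : Fin n → ℤ, ∑ i, (q i : ℝ) ^ 2 ≤
      K * (eulerForm hCY (∑ i, q i • cl (s i)) (∑ i, q i • cl (s i)) : ℝ) := by
  classical
  have hsymm : ∀ i j, chi k (s i) (s j) = chi k (s j) (s i) := fun i j => chi_symm hCY _ _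
  have hneg : ∀ i j, i ≠ j → chi k (s i) (s j) ≤ 0 := fun i j hij =>
    (chi_simple_ne hCY (P_isAdm σ θ) (hs i) (hs j) (hne i j hij)).1
  have hpsdG : ∀ c : Fin n →₀ ℤ, 0 ≤ bil (fun i j => chi k (s i) (s j)) c c := fun c => by
    rw [pos_bil hCY]
    exact hpsd _
  have hZpos : ∀ i, 0 < wt σ θ (cl (s i)) := by
    intro i
    rw [wt_eq_norm σ θ (hs i).1, norm_pos_iff]
    obtain ⟨m, hm, hZ⟩ := σ.compat θ (s i) (hs i).1 (hs i).2.1
    rw [hZ]
    exact mul_ne_zero (Complex.ofReal_ne_zero.2 hm.ne') (Complex.exp_ne_zero _)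
  -- the form is definite
  have hdef : ∀ x : Fin n →₀ ℤ, bil (fun i j => chi k (s i) (s j)) x x = 0 → ∀ i, x i = 0 := by
    intro x hx
    have habs := abs_radical hsymm hneg hpsdG hx
    rw [pos_bil hCY] at habs
    have hrad := psd_radical_form hCY hpsd habs
    obtain ⟨E, hE, hE2⟩ := pos_obj σ θ s (fun i => (hs i).1) (fun i => (x i).natAbs) Finset.univ
    have hcl : cl E = ∑ i, (x.mapRange (fun a => |a|) abs_zero) i • cl (s i) := by
      rw [hE2]
      refine Finset.sum_congr rfl fun i _ => ?_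
      rw [Finsupp.mapRange_apply, Int.abs_eq_natAbs, natCast_zsmul]
    have hEz : IsZero E := by
      by_contra h
      exact hno E hE h (by rw [hcl]; exact hrad)
    have hw : wt σ θ (cl E) = ∑ i, ((x i).natAbs : ℝ) * wt σ θ (cl (s i)) := by
      rw [hE2, map_sum]
      refine Finset.sum_congr rfl fun i _ => ?_
      rw [map_nsmul, nsmul_eq_mul]
    rw [cl_zero hEz, map_zero] at hw
    have h0 := (Finset.sum_eq_zero_iff_of_nonneg (fun i _ =>
      mul_nonneg (Nat.cast_nonneg _) (hZpos i).le)).1 hw.symm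
    intro i
    have h1 := h0 i (Finset.mem_univ i)
    rcases mul_eq_zero.1 h1 with h2 | h2
    · have h3 : (x i).natAbs = 0 := by exact_mod_cast h2
      exact Int.natAbs_eq_zero.1 h3
    · exact absurd h2 (hZpos i).ne'
  -- the bound
  let e : (Fin n → ℤ) →+ K0 C :=
    { toFun := fun q => ∑ i, q i • cl (s i)
      map_zero' := by simp
      map_add' := fun x y => by
        simp only [Pi.add_apply, add_smul, Finset.sum_add_distrib] }
  have he : ∀ q, e q = ∑ i, q i • cl (s i) := fun q => rfl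
  let B : (Fin n → ℤ) →+ (Fin n → ℤ) →+ ℤ := ((eulerForm hCY).comp e).compl₂ e
  have hB : ∀ x y, B x y = eulerForm hCY (e x) (e y) := fun x y => rfl
  have hK : ∀ i : Fin n, ∃ K : ℝ, 0 ≤ K ∧ ∀ q : Fin n → ℤ, (q i : ℝ) ^ 2 ≤
      K * (eulerForm hCY (e q) (e q) : ℝ) := by
    intro i
    obtain ⟨K, hK0, hK⟩ := psd_bound B (fun x y => by rw [hB, hB, eulerForm_symm])
      (fun x => by rw [hB]; exact hpsd _)
      ((Int.castAddHom ℝ).comp (Pi.evalAddMonoidHom (fun _ : Fin n => ℤ) i)) (fun x hx => by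
        have h1 := hx x
        rw [hB, he] at h1
        have h2 := hdef (Finsupp.equivFunOnFinite.symm x) (by
          rw [pos_bil hCY]
          exact h1) i
        have h3 : x i = 0 := h2
        show ((x i : ℤ) : ℝ) = 0
        rw [h3, Int.cast_zero])
    exact ⟨K, hK0, hK⟩
  choose K hK0 hK using hK
  refine ⟨∑ i, K i, Finset.sum_nonneg fun i _ => hK0 i, fun q => ?_⟩
  rw [Finset.sum_mul]
  exact Finset.sum_le_sum fun i _ => hK i q

end MP_14a437_ag
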