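import Pool.Agent.Work.MP_14a437_ag.B.Ind
import Pool.Agent.Work.MP_14a437_ag.T.ThmA

/-!
# B/Thm  (S) : existence of semistable objects of radical class

`finiteLength_of_no_radical` and `not_finiteLength` contradict `hab`.
-/

open CategoryTheory CategoryTheory.Limits CategoryTheory.Pretriangulated

universe v u

namespace MP_14a437_ag

variable {C : Type u} [Category.{v} C] [Preadditive C] [HasZeroObject C] [HasShift C ℤ]
  [∀ n : ℤ, (shiftFunctor C n).Additive] [Pretriangulated C] [IsTriangulated C]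

variable {k : Type*} [Field k] [IsAlgClosed k] [Linear k C]

theorem exists_radical_semistable [Module.Free ℤ (K0 C)] [Module.Finite ℤ (K0 C)]
    (hCY : IsCY2 C k) (hInd : IsIndecomposable C) (hpsd : ∀ x, 0 ≤ eulerForm hCY x x)
    {a b : K0 C} (ha : a ∈ radical hCY) (hb : b ∈ radical hCY)
    (hab : ∀ m n : ℤ, m • a + n • b = 0 → m = 0 ∧ n = 0) (σ : StabCond C) (θ : ℝ)
    {δ : ℝ} (hδ : 0 < δ) (hdisc : ∀ x : K0 C, 0 < ht σ θ x → δ ≤ ht σ θ x) :
    ∃ E : C, σ.P θ E ∧ ¬ IsZero E ∧ cl E ∈ radical hCY := by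
  by_contra hcon
  push Not at hcon
  have hfl := finiteLength_of_no_radical hCY hpsd σ θ hδ hdisc hcon
  obtain ⟨m, n, hmn, h0⟩ := not_finiteLength hCY hInd hpsd σ.toSlicing (θ - 1) hfl a b ha hb
  obtain ⟨rfl, rfl⟩ := hab m n h0
  simp at hmn

end MP_14a437_ag
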